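import Pool.Agent.Lib.MP_28303a_al.TW.Lemmas

/-! # Module EULER (helper33): Euler characteristics by Schanuel induction -/

set_option autoImplicit false
set_option linter.unusedSectionVars false
set_option linter.unusedVariables false

namespace Pool.Agent.NegK.TW.H33

universe u v w

open Matrix MonoidAlgebra

/-- The kernel of `p × id`. -/
theorem ker_prod_id {A : Type u} [Ring A] {P Y K Z : Type u} [AddCommGroup P] [Module A P]
    [AddCommGroup Y] [Module A Y] [AddCommGroup K] [Module A K] [AddCommGroup Z] [Module A Z]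
    (p : P →ₗ[A] Y) (e : (Y × K) ≃ₗ[A] Z) :
    Nonempty (LinearMap.ker (e.toLinearMap ∘ₗ p.prodMap (LinearMap.id : K →ₗ[A] K)) ≃ₗ[A]
      LinearMap.ker p) := by
  have h : ∀ x : P × K, x ∈ LinearMap.ker (e.toLinearMap ∘ₗ p.prodMap LinearMap.id) ↔
      p x.1 = 0 ∧ x.2 = 0 := by
    intro x
    rw [LinearEquiv.ker_comp, LinearMap.mem_ker]
    exact Prod.ext_iff
  exact ⟨
    { toFun := fun x => ⟨(x : P × K).1, LinearMap.mem_ker.2 ((h _).1 x.2).1⟩
      invFun := fun y => ⟨((y : P), 0), (h _).2 ⟨y.2, rfl⟩⟩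
      map_add' := fun x y => rfl
      map_smul' := fun r x => rfl
      left_inv := fun x => Subtype.ext (Prod.ext rfl ((h _).1 x.2).2.symm)
      right_inv := fun y => rfl }⟩

theorem euler : EulerStatement.{u} := by
  intro A _ n
  induction n with
  | zero =>
    intro K U Q Y _ _ _ _ _ _ _ _ f g hK1 hK2 hU1 hU2 hf hg hY ⟨e1⟩ ⟨e2⟩
    obtain ⟨e⟩ := schanuel hK2 hU2 f g hf hg
    obtain ⟨hY1, hY2⟩ := hY
    have e' : (Y × K) ≃ₗ[A] (Y × U) := ((LinearEquiv.prodCongr e2 (LinearEquiv.refl A K)).symm.trans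
      e).trans (LinearEquiv.prodCongr e1 (LinearEquiv.refl A U))
    have h1 := mc_congr (A := A) (M := Y × K) (N := Y × U) inferInstance inferInstance e'
    rw [mc_prod hY1 hY2 hK1 hK2, mc_prod hY1 hY2 hU1 hU2] at h1
    exact add_left_cancel h1
  | succ n ih =>
    intro K U Q Y _ _ _ _ _ _ _ _ f g hK1 hK2 hU1 hU2 hf hg hY ⟨e1⟩ ⟨e2⟩
    obtain ⟨e⟩ := schanuel hK2 hU2 f g hf hg
    obtain ⟨P, _, _, p, hP1, hP2, hp, hn⟩ := hY
    have e' : (Y × K) ≃ₗ[A] (Y × U) := ((LinearEquiv.prodCongr e2 (LinearEquiv.refl A K)).symm.trans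
      e).trans (LinearEquiv.prodCongr e1 (LinearEquiv.refl A U))
    have hs : ∀ (X : Type u) [AddCommGroup X] [Module A X],
        Function.Surjective (p.prodMap (LinearMap.id : X →ₗ[A] X)) := by
      intro X _ _ ⟨y, x⟩
      obtain ⟨z, rfl⟩ := hp y
      exact ⟨(z, x), rfl⟩
    have h1 := ih (P × K) (P × U) (Y × U) (LinearMap.ker p)
      (e'.toLinearMap ∘ₗ p.prodMap (LinearMap.id : K →ₗ[A] K))
      ((LinearEquiv.refl A (Y × U)).toLinearMap ∘ₗ p.prodMap (LinearMap.id : U →ₗ[A] U))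
      inferInstance inferInstance inferInstance inferInstance
      (e'.surjective.comp (hs K)) ((LinearEquiv.refl A (Y × U)).surjective.comp (hs U)) hn
      (ker_prod_id p e') (ker_prod_id p (LinearEquiv.refl A (Y × U)))
    rw [mc_prod hP1 hP2 hK1 hK2, mc_prod hP1 hP2 hU1 hU2] at h1
    exact add_left_cancel h1

end Pool.Agent.NegK.TW.H33
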