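import Pool.Agent.Lib.MP_28303a_al.TW.Lemmas
import Pool.Agent.Lib.MP_28303a_al.WR.H16.Inda

/-! # Module LAT (helper33): a lattice with a finite resolution has index zero -/

set_option autoImplicit false
set_option linter.unusedSectionVars false
set_option linter.unusedVariables false

namespace Pool.Agent.NegK.TW.H33

universe u v w

open Matrix MonoidAlgebra

/-- The surjection `W / P → W / L` and its kernel `L / P`. -/
theorem exists_surj {A : Type u} [Ring A] {V : Type u} [AddCommGroup V] [Module A V]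
    {P L W : Submodule A V} (h1 : P ≤ L) (h2 : L ≤ W) :
    ∃ f : (W.map P.mkQ) →ₗ[A] (W.map L.mkQ), Function.Surjective f ∧
      Nonempty (LinearMap.ker f ≃ₗ[A] (L.map P.mkQ)) := by
  let g : (V ⧸ P) →ₗ[A] (V ⧸ L) := Submodule.factor h1
  let f : (W.map P.mkQ) →ₗ[A] (W.map L.mkQ) :=
    g.restrict (by
      rintro _ ⟨v, hv, rfl⟩
      exact ⟨v, hv, rfl⟩)
  have hf : Function.Surjective f := by
    rintro ⟨_, v, hv, rfl⟩
    exact ⟨⟨P.mkQ v, v, hv, rfl⟩, rfl⟩
  have hle : L.map P.mkQ ≤ W.map P.mkQ := Submodule.map_mono h2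
  have hker : LinearMap.ker f = (L.map P.mkQ).submoduleOf (W.map P.mkQ) := by
    ext ⟨x, hx⟩
    obtain ⟨v, hv, rfl⟩ := hx
    rw [LinearMap.mem_ker]
    constructor
    · intro h
      have h3 : L.mkQ v = 0 := congrArg Subtype.val h
      rw [Submodule.mkQ_apply, Submodule.Quotient.mk_eq_zero] at h3
      exact ⟨v, h3, rfl⟩
    · rintro ⟨w, hw, hvw⟩
      have h4 : P.mkQ w = P.mkQ v := hvw
      have h3 : L.mkQ v = 0 := by
        have h5 : L.mkQ v = L.mkQ w := congrArg g h4.symm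
        rw [h5, Submodule.mkQ_apply, Submodule.Quotient.mk_eq_zero]
        exact hw
      exact Subtype.ext h3
  exact ⟨f, hf, ⟨(LinearEquiv.ofEq _ _ hker).trans (Submodule.submoduleOfEquivOfLe hle)⟩⟩

theorem lat (hE : EulerStatement.{u}) (hG : GeqStatement.{u}) (hI : IndaStatement.{u}) :
    LatStatement.{u} := by
  intro A _ ι _ _ α hα m d L h0 hm hL hres
  obtain ⟨hp, hf, -⟩ := hG A ι
  have G : WR.H16.Geq A ι := ⟨hp, hf⟩
  obtain ⟨β, h1, h2⟩ := isUnit_iff_exists.1 hα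
  have hP1 : (Ge A ι 0).map (rmul α) ≤ L := by
    rw [← hL]
    exact Submodule.map_mono h0
  rw [WR.H16.ind_eq G h1 h2 (hP1.trans hm), sub_eq_zero]
  have L0 := WR.H16.Lat.of_ge G 0
  have Lm := WR.H16.Lat.of_ge G (-(m : ℤ))
  have L1 := L0.map G h1 h2
  obtain ⟨f, hfs, ⟨e1⟩⟩ := exists_surj hP1 hm
  obtain ⟨g, hgs, he2⟩ := exists_surj h0 hm
  -- `L / Ge 0 → L / (Ge 0 α)`
  let e : ((ι → LaurentPolynomial A) ⧸ Ge A ι 0) ≃ₗ[A]
      ((ι → LaurentPolynomial A) ⧸ (Ge A ι 0).map (rmul α)) :=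
    Submodule.Quotient.equiv (Ge A ι 0) ((Ge A ι 0).map (rmul α)) (WR.H16.requiv α β h1 h2) rfl
  have he : (L.map (Ge A ι 0).mkQ).map e.toLinearMap =
      L.map ((Ge A ι 0).map (rmul α)).mkQ := by
    conv_rhs => rw [← hL]
    rw [← Submodule.map_comp, ← Submodule.map_comp]
    rfl
  have e' : (L.map (Ge A ι 0).mkQ) ≃ₗ[A] (L.map ((Ge A ι 0).map (rmul α)).mkQ) :=
    (e.submoduleMap (L.map (Ge A ι 0).mkQ)).trans (LinearEquiv.ofEq _ _ he)
  exact hE A d _ _ _ _ f g (L1.fin G _) (rel_projective (hP1.trans hm) L1.proj Lm.proj)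
    (L0.fin G _) (rel_projective (h0.trans hm) L0.proj Lm.proj) hfs hgs hres
    ⟨e1.trans e'.symm⟩ he2

end Pool.Agent.NegK.TW.H33
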